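import Pool.Agent.Work.MP_37ce0f_lc.N.Upper

namespace Pool.Agent.Work.MP_37ce0f_lc.Cor.NestedCubic
open Pool.Agent.Work.MP_37ce0f_lc.N

/-- Straight-line monotone grid drawings of `k` nested triangles with pendant paths of length `L`
need area of order exactly `k^3 L^2`: cubic in the number of vertices for fixed `L ≥ 1`. -/
theorem result (k L : ℕ) :
    (∀ (p : V k L → ℤ × ℤ) (W H : ℕ), IsMono (G k L) p → Nested p → InBox p W H →
      L ^ 2 * (k - 2) ^ 3 ≤ W * H) ∧
    ∃ p : V k L → ℤ × ℤ, Planar (G k L) p ∧ IsMono (G k L) p ∧ Nested p ∧ Outside p ∧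
      InBox p (2 * k ^ 2 * (L + 1)) (k * (L + 1)) :=
  ⟨fun _ _ _ => lower, pos, planar, isMono, nested, outside, inBox⟩

end Pool.Agent.Work.MP_37ce0f_lc.Cor.NestedCubic
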