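import Pool.Agent.Work.MP_37ce0f_lc.Q.Low5

namespace Pool.Agent.Work.MP_37ce0f_lc.Cor.SquareLow
open Pool.Agent.Work.MP_37ce0f_lc.W

/-- Some plane tree needs the long side `2 ⌊(n-1)/5⌋` in every monotone grid drawing. -/
theorem result (n : ℕ) (hn : 1 ≤ n) : ∃ G : SimpleGraph (Fin n), G.IsTree ∧ NoCross G ∧
    ∀ (D : Drawing n) (W H : ℕ), IsMono G D → InBox G D W H →
      2 * ((n - 1) / 5) ≤ max W H :=
  Pool.Agent.Work.MP_37ce0f_lc.Q.lower5 n hn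

end Pool.Agent.Work.MP_37ce0f_lc.Cor.SquareLow
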